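import Mathlib

set_option autoImplicit false

/-!
Maclagan's theorem: the upper sets of `ℕ^n` (i.e. the monomial ideals) are well-quasi-ordered by
reverse inclusion.
-/

namespace Pool.Agent.H24.VSP

/-- The slice `{x | (k, x) ∈ U}` of an upper set. -/
def slice {n : ℕ} (U : UpperSet (Fin (n + 1) → ℕ)) (k : ℕ) : UpperSet (Fin n → ℕ) where
  carrier := {x | (Fin.cons k x : Fin (n + 1) → ℕ) ∈ U}
  upper' := by
    intro x y hxy hx
    refine U.upper ?_ hx
    intro i
    refine Fin.cases ?_ (fun j => ?_) i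
    · simp
    · simpa using hxy j

theorem mem_slice {n : ℕ} (U : UpperSet (Fin (n + 1) → ℕ)) (k : ℕ) (x : Fin n → ℕ) :
    x ∈ slice U k ↔ (Fin.cons k x : Fin (n + 1) → ℕ) ∈ U := Iff.rfl

theorem slice_anti {n : ℕ} (U : UpperSet (Fin (n + 1) → ℕ)) : Antitone (slice U) := by
  intro k l hkl x hx
  have hx' : x ∈ slice U k := hx
  have : x ∈ slice U l := by
    rw [mem_slice] at hx' ⊢
    refine U.upper ?_ hx'
    intro i
    refine Fin.cases ?_ (fun j => ?_) i
    · simpa using hkl
    · simp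
  exact this

theorem le_of_slice_le {n : ℕ} {U V : UpperSet (Fin (n + 1) → ℕ)}
    (h : ∀ k, slice U k ≤ slice V k) : U ≤ V := by
  intro x hx
  have hx' : x ∈ V := hx
  have h1 : Fin.tail x ∈ slice V (x 0) := by
    rw [mem_slice, Fin.cons_self_tail]; exact hx'
  have h2 : Fin.tail x ∈ slice U (x 0) := h (x 0) h1
  rw [mem_slice, Fin.cons_self_tail] at h2
  exact h2

theorem exists_stable {n : ℕ} [WellFoundedLT (UpperSet (Fin n → ℕ))]
    (U : UpperSet (Fin (n + 1) → ℕ)) : ∃ a, ∀ k, a ≤ k → slice U k = slice U a := by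
  obtain ⟨_, ⟨a, rfl⟩, ha⟩ := WellFounded.has_min
    (wellFounded_lt : WellFounded ((· < ·) : UpperSet (Fin n → ℕ) → UpperSet (Fin n → ℕ) → Prop))
    (Set.range (slice U)) ⟨_, 0, rfl⟩
  exact ⟨a, fun k hk => eq_of_le_of_not_lt (slice_anti U hk) (ha _ ⟨k, rfl⟩)⟩

theorem sublist_index {α β : Type} {r : α → β → Prop} {l₁ : List α} {l₂ : List β}
    (h : List.SublistForall₂ r l₁ l₂) : ∀ i (hi : i < l₁.length), ∃ j, i ≤ j ∧
      ∃ hj : j < l₂.length, r l₁[i] l₂[j] := by
  induction h with
  | nil => intro i hi; simp at hi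
  | cons hr _ ih =>
    intro i hi
    cases i with
    | zero => exact ⟨0, le_rfl, by simp, by simpa using hr⟩
    | succ i =>
      obtain ⟨j, hij, hj, hr'⟩ := ih i (by simpa using hi)
      exact ⟨j + 1, by omega, by simpa using hj, by simpa using hr'⟩
  | cons_right _ ih =>
    intro i hi
    obtain ⟨j, hij, hj, hr'⟩ := ih i hi
    exact ⟨j + 1, by omega, by simpa using hj, by simpa using hr'⟩

theorem wqo_succ {n : ℕ} (h : WellQuasiOrderedLE (UpperSet (Fin n → ℕ))) :
    WellQuasiOrderedLE (UpperSet (Fin (n + 1) → ℕ)) := by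
  have hwf : WellFoundedLT (UpperSet (Fin n → ℕ)) := inferInstance
  choose a ha using fun U : UpperSet (Fin (n + 1) → ℕ) => exists_stable U
  have hlist : WellQuasiOrdered
      (List.SublistForall₂ ((· ≤ ·) : UpperSet (Fin n → ℕ) → UpperSet (Fin n → ℕ) → Prop)) := by
    have h1 := Set.PartiallyWellOrderedOn.partiallyWellOrderedOn_sublistForall₂
      ((· ≤ ·) : UpperSet (Fin n → ℕ) → UpperSet (Fin n → ℕ) → Prop)
      (s := Set.univ) (Set.partiallyWellOrderedOn_univ_iff.2 wellQuasiOrdered_le)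
    rw [← Set.partiallyWellOrderedOn_univ_iff]
    refine h1.mono ?_
    intro l _
    simp
  constructor
  intro f
  let L : UpperSet (Fin (n + 1) → ℕ) → List (UpperSet (Fin n → ℕ)) :=
    fun U => (List.range (a U + 1)).map (slice U)
  obtain ⟨i, j, hij, hs, hL⟩ := ((wellQuasiOrdered_le (α := UpperSet (Fin n → ℕ))).prod hlist)
    (fun m => (slice (f m) (a (f m)), L (f m)))
  refine ⟨i, j, hij, le_of_slice_le fun k => ?_⟩
  have key : ∀ k, slice (f j) (a (f j)) ≤ slice (f j) k := by
    intro k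
    rcases le_total k (a (f j)) with hk | hk
    · exact slice_anti _ hk
    · rw [ha (f j) k hk]
  rcases le_or_gt k (a (f i)) with hk | hk
  · obtain ⟨l, hkl, hl, hr⟩ := sublist_index hL k (by simp [L]; omega)
    have hr' : slice (f i) k ≤ slice (f j) l := by simpa [L] using hr
    exact hr'.trans (slice_anti _ hkl)
  · rw [ha (f i) k hk.le]
    exact le_trans hs (key k)

theorem wqo_upperSet (n : ℕ) : WellQuasiOrderedLE (UpperSet (Fin n → ℕ)) := by
  induction n with
  | zero =>
    have : Finite (UpperSet (Fin 0 → ℕ)) :=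
      Finite.of_injective (fun U : UpperSet (Fin 0 → ℕ) => (U : Set (Fin 0 → ℕ)))
        SetLike.coe_injective
    exact Finite.to_wellQuasiOrderedLE
  | succ n ih => exact wqo_succ ih

end Pool.Agent.H24.VSP
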