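import Pool.Agent.H24.VSP.Maclagan
import Pool.Agent.H78.VSP.Defs

set_option autoImplicit false

/-!
Every ideal with Hilbert function `h` is generated in a fixed finite set of degrees.
-/

open MvPolynomial

namespace Pool.Agent.H24.VSP

open Pool.Agent.H78.VSP

/-- the lexicographic order -/
noncomputable abbrev mo (N : ℕ) : MonomialOrder (Fin N) := MonomialOrder.lex

/-- the leading exponents of a space of polynomials -/
def lexp {N : ℕ} (V : Submodule ℂ (MvPolynomial (Fin N) ℂ)) : Set (Fin N →₀ ℕ) :=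
  {m | ∃ f ∈ V, f ≠ 0 ∧ (mo N).degree f = m}

/-- reduction of `f` by `g` with the same leading exponent -/
theorem reduce_step {N : ℕ} {f g : MvPolynomial (Fin N) ℂ} (hg : g ≠ 0)
    (h : (mo N).degree g = (mo N).degree f) :
    ∃ c : ℂ, f - c • g = 0 ∨
      (mo N).toSyn ((mo N).degree (f - c • g)) < (mo N).toSyn ((mo N).degree f) := by
  refine ⟨(mo N).leadingCoeff f / (mo N).leadingCoeff g, ?_⟩
  by_cases h0 : f - ((mo N).leadingCoeff f / (mo N).leadingCoeff g) • g = 0
  · exact Or.inl h0
  right
  have hlg : (mo N).leadingCoeff g ≠ 0 := (mo N).leadingCoeff_ne_zero_iff.2 hg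
  have hc : coeff ((mo N).degree f) (f - ((mo N).leadingCoeff f / (mo N).leadingCoeff g) • g) = 0 := by
    have h1 : coeff ((mo N).degree f) g = (mo N).leadingCoeff g := by
      rw [← h]; rfl
    have h2 : coeff ((mo N).degree f) f = (mo N).leadingCoeff f := rfl
    rw [coeff_sub, coeff_smul, h1, h2, smul_eq_mul]
    field_simp
    ring
  have hmem := (mo N).degree_mem_support h0
  have hle : (mo N).toSyn ((mo N).degree
      (f - ((mo N).leadingCoeff f / (mo N).leadingCoeff g) • g)) ≤ (mo N).toSyn ((mo N).degree f) := by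
    refine le_trans (mo N).degree_sub_le ?_
    refine sup_le le_rfl ?_
    rw [← h]
    exact (mo N).degree_smul_le
  refine lt_of_le_of_ne hle ?_
  intro he
  have he' := (mo N).toSyn.injective he
  rw [he', mem_support_iff] at hmem
  exact hmem hc

/-- the number of leading exponents is the dimension -/
theorem finrank_eq {N : ℕ} (V : Submodule ℂ (MvPolynomial (Fin N) ℂ)) [FiniteDimensional ℂ V] :
    (lexp V).Finite ∧ Module.finrank ℂ V = (lexp V).ncard := by
  classical
  choose g hgV hg0 hg using fun m : lexp V => m.2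
  let b : lexp V → V := fun m => ⟨g m, hgV m⟩
  have hli : LinearIndependent ℂ b := by
    rw [linearIndependent_iff']
    intro s c hs
    by_contra hne
    push Not at hne
    obtain ⟨i, his, hi⟩ := hne
    have hne' : (s.filter fun i => c i ≠ 0).Nonempty := ⟨i, by simp [his, hi]⟩
    obtain ⟨i0, hi0, hmax⟩ := Finset.exists_max_image (s.filter fun i => c i ≠ 0)
      (fun m : lexp V => (mo N).toSyn m.1) hne'
    rw [Finset.mem_filter] at hi0
    have h1 : ∑ j ∈ s, c j • g j = 0 := by
      have := congrArg (Subtype.val) hs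
      simpa [b] using this
    have h2 := congrArg (coeff i0.1) h1
    rw [coeff_sum, Finset.sum_eq_single i0] at h2
    · rw [coeff_smul, smul_eq_mul, coeff_zero] at h2
      have h3 : coeff i0.1 (g i0) = (mo N).leadingCoeff (g i0) := by
        rw [← hg i0]; rfl
      rw [h3] at h2
      rcases mul_eq_zero.1 h2 with h4 | h4
      · exact hi0.2 h4
      · exact (mo N).leadingCoeff_ne_zero_iff.2 (hg0 i0) h4
    · intro j hj hji
      rw [coeff_smul, smul_eq_mul]
      by_cases hcj : c j = 0
      · rw [hcj, zero_mul]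
      · have h5 := hmax j (by simp [hj, hcj])
        have h6 : (mo N).toSyn ((mo N).degree (g j)) < (mo N).toSyn i0.1 := by
          rw [hg j]
          refine lt_of_le_of_ne h5 ?_
          intro he
          exact hji (Subtype.ext ((mo N).toSyn.injective he))
        rw [(mo N).coeff_eq_zero_of_lt h6, mul_zero]
    · intro h; exact absurd hi0.1 h
  have hspan : ⊤ ≤ Submodule.span ℂ (Set.range b) := by
    have key : ∀ t : (mo N).syn, ∀ f : V, f.1 ≠ 0 → (mo N).toSyn ((mo N).degree f.1) = t →
        f ∈ Submodule.span ℂ (Set.range b) := by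
      intro t
      induction t using WellFoundedLT.induction with
      | _ t ih =>
      intro f hf ht
      have hm : (mo N).degree f.1 ∈ lexp V := ⟨f.1, f.2, hf, rfl⟩
      obtain ⟨c, hc⟩ := reduce_step (f := f.1) (hg0 ⟨_, hm⟩) (hg ⟨_, hm⟩)
      have hb : b ⟨_, hm⟩ ∈ Submodule.span ℂ (Set.range b) := Submodule.subset_span ⟨_, rfl⟩
      have hfe : f = (f - c • b ⟨_, hm⟩) + c • b ⟨_, hm⟩ := by abel
      rw [hfe]
      refine Submodule.add_mem _ ?_ (Submodule.smul_mem _ _ hb)
      by_cases h0 : (f - c • b ⟨_, hm⟩).1 = 0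
      · have : f - c • b ⟨_, hm⟩ = 0 := Subtype.ext h0
        rw [this]; exact Submodule.zero_mem _
      · rcases hc with hc | hc
        · exact absurd hc h0
        · exact ih _ (ht ▸ hc) _ h0 rfl
    intro f _
    by_cases hf : f.1 = 0
    · have : f = 0 := Subtype.ext hf
      rw [this]; exact Submodule.zero_mem _
    · exact key _ f hf rfl
  have hfin : Finite (lexp V) := hli.finite
  refine ⟨Set.toFinite _, ?_⟩
  rw [Module.finrank_eq_nat_card_basis (Module.Basis.mk hli hspan)]
  rfl

variable (X : CoxData)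

theorem finiteDimensional_gr (u : X.Pic) : FiniteDimensional ℂ (X.gr u) := by
  have hfin := X.finite_monomials u
  have hle : X.gr u ≤ Submodule.span ℂ ((fun m => monomial m (1 : ℂ)) ''
      {m : Fin X.N →₀ ℕ | Finsupp.weight X.deg m = u}) := by
    intro f hf
    rw [f.as_sum]
    refine Submodule.sum_mem _ fun m hm => ?_
    have hw : Finsupp.weight X.deg m = u := hf (mem_support_iff.1 hm)
    have : monomial m (coeff m f) = (coeff m f) • monomial m (1 : ℂ) := by
      rw [smul_monomial, smul_eq_mul, mul_one]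
    rw [this]
    exact Submodule.smul_mem _ _ (Submodule.subset_span ⟨m, hw, rfl⟩)
  have : FiniteDimensional ℂ (Submodule.span ℂ ((fun m => monomial m (1 : ℂ)) ''
      {m : Fin X.N →₀ ℕ | Finsupp.weight X.deg m = u})) :=
    FiniteDimensional.span_of_finite ℂ (hfin.image _)
  exact Submodule.finiteDimensional_of_le hle

/-- the graded piece `J_u` -/
noncomputable def piece (J : Ideal X.S) (u : X.Pic) : Submodule ℂ X.S := X.gr u ⊓ J.restrictScalars ℂ

theorem mem_piece {J : Ideal X.S} {u : X.Pic} {f : X.S} :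
    f ∈ piece X J u ↔ f ∈ X.gr u ∧ f ∈ J := by
  simp [piece]

instance (J : Ideal X.S) (u : X.Pic) : FiniteDimensional ℂ (piece X J u) :=
  have := finiteDimensional_gr X u
  Submodule.finiteDimensional_of_le (S₂ := X.gr u) inf_le_left

theorem hf_add (J : Ideal X.S) (u : X.Pic) :
    X.hf J u + (lexp (piece X J u)).ncard = Module.finrank ℂ (X.gr u) := by
  have := finiteDimensional_gr X u
  have h1 := Submodule.finrank_quotient_add_finrank
    ((J.restrictScalars ℂ).comap (X.gr u).subtype)
  have h2 : Module.finrank ℂ ((J.restrictScalars ℂ).comap (X.gr u).subtype) =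
      (lexp (piece X J u)).ncard := by
    rw [← (finrank_eq (piece X J u)).2, piece, ← Submodule.map_comap_subtype,
      Submodule.finrank_map_subtype_eq]
  rw [CoxData.hf, ← h2]
  exact h1

/-- the leading exponents of the homogeneous elements of `J` -/
noncomputable def LE (J : Ideal X.S) : UpperSet (Fin X.N → ℕ) where
  carrier := {x | ∃ u f, f ∈ J ∧ f ∈ X.gr u ∧ f ≠ 0 ∧ ⇑((mo X.N).degree f) = x}
  upper' := by
    rintro x y hxy ⟨u, f, hfJ, hfu, hf0, rfl⟩
    let m' : Fin X.N →₀ ℕ := Finsupp.equivFunOnFinite.symm (y - ⇑((mo X.N).degree f))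
    refine ⟨Finsupp.weight X.deg m' + u, monomial m' 1 * f, J.mul_mem_left _ hfJ, ?_, ?_, ?_⟩
    · exact IsWeightedHomogeneous.mul (isWeightedHomogeneous_monomial X.deg m' 1 rfl) hfu
    · exact mul_ne_zero (by simp) hf0
    · rw [(mo X.N).degree_mul (by simp) hf0, (mo X.N).degree_monomial]
      funext i
      have h1 : ((mo X.N).degree f) i ≤ y i := hxy i
      simp [m', h1]

theorem mem_LE {J : Ideal X.S} {m : Fin X.N →₀ ℕ} :
    ⇑m ∈ LE X J ↔ m ∈ lexp (piece X J (Finsupp.weight X.deg m)) := by
  constructor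
  · rintro ⟨u, f, hfJ, hfu, hf0, hm⟩
    have hm' : (mo X.N).degree f = m := DFunLike.coe_injective hm
    have hw : Finsupp.weight X.deg m = u := by
      rw [← hm']
      exact hfu (mem_support_iff.1 ((mo X.N).degree_mem_support hf0))
    rw [hw]
    exact ⟨f, (mem_piece X).2 ⟨hfu, hfJ⟩, hf0, hm'⟩
  · rintro ⟨f, hf, hf0, hm⟩
    rw [mem_piece] at hf
    exact ⟨_, f, hf.2, hf.1, hf0, by rw [hm]⟩

theorem mem_lexp_weight {J : Ideal X.S} {u : X.Pic} {m : Fin X.N →₀ ℕ}
    (h : m ∈ lexp (piece X J u)) : Finsupp.weight X.deg m = u := by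
  obtain ⟨f, hf, hf0, hm⟩ := h
  rw [mem_piece] at hf
  rw [← hm]
  exact hf.1 (mem_support_iff.1 ((mo X.N).degree_mem_support hf0))

theorem LE_eq_of_le {J J' : Ideal X.S} (h : ∀ u, X.hf J u = X.hf J' u) (hle : LE X J ≤ LE X J') :
    LE X J = LE X J' := by
  refine le_antisymm hle ?_
  intro x hx
  have hx' : x ∈ LE X J := hx
  obtain ⟨m, rfl⟩ : ∃ m : Fin X.N →₀ ℕ, ⇑m = x := ⟨Finsupp.equivFunOnFinite.symm x, by simp⟩
  set u := Finsupp.weight X.deg m with hu
  have hsub : lexp (piece X J' u) ⊆ lexp (piece X J u) := by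
    intro m' hm'
    have hw := mem_lexp_weight X hm'
    have h1 : ⇑m' ∈ LE X J' := by rw [mem_LE, hw]; exact hm'
    have h2 : ⇑m' ∈ LE X J := hle h1
    rw [mem_LE, hw] at h2
    exact h2
  have hcard : (lexp (piece X J u)).ncard ≤ (lexp (piece X J' u)).ncard := by
    have h1 := hf_add X J u
    have h2 := hf_add X J' u
    have h3 := h u
    omega
  have heq := Set.eq_of_subset_of_ncard_le hsub hcard (finrank_eq (piece X J u)).1
  have h4 : ⇑m ∈ LE X J' := by
    rw [mem_LE, ← hu, heq, hu, ← mem_LE]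
    exact hx'
  exact h4

theorem finite_LE (h : X.Pic → ℕ) : (Set.range fun J : X.Hilb h => LE X J.1).Finite := by
  have := wqo_upperSet X.N
  refine WellQuasiOrderedLE.finite_of_isAntichain ?_
  rintro _ ⟨J, rfl⟩ _ ⟨J', rfl⟩ hne hle
  exact hne (LE_eq_of_le X (fun u => by rw [J.2.2, J'.2.2]) hle)

theorem exists_supportive (h : X.Pic → ℕ) (v : X.Pic) :
    ∃ D : Finset X.Pic, v ∈ D ∧ X.Supportive D h := by
  classical
  have hmin : ∀ U : UpperSet (Fin X.N → ℕ), {x | Minimal (· ∈ U) x}.Finite := by
    intro U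
    exact WellQuasiOrderedLE.finite_of_isAntichain (setOfPred_minimal_antichain _)
  have hD : (⋃ U ∈ (Set.range fun J : X.Hilb h => LE X J.1),
      (fun x : Fin X.N → ℕ => Finsupp.weight X.deg (Finsupp.equivFunOnFinite.symm x)) ''
        {x | Minimal (· ∈ U) x}).Finite :=
    (finite_LE X h).biUnion fun U _ => (hmin U).image _
  refine ⟨insert v hD.toFinset, Finset.mem_insert_self _ _, ?_⟩
  intro J
  set D := insert v hD.toFinset with hDdef
  apply le_antisymm
  · -- homogeneous elements
    have key : ∀ t : (mo X.N).syn, ∀ u : X.Pic, ∀ f : X.S, f ∈ J.1 → f ∈ X.gr u → f ≠ 0 →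
        (mo X.N).toSyn ((mo X.N).degree f) = t →
        f ∈ Ideal.span {f | f ∈ J.1 ∧ ∃ u ∈ D, f ∈ X.gr u} := by
      intro t
      induction t using WellFoundedLT.induction with
      | _ t ih =>
      intro u f hfJ hfu hf0 ht
      have hx : ⇑((mo X.N).degree f) ∈ LE X J.1 := ⟨u, f, hfJ, hfu, hf0, rfl⟩
      obtain ⟨y, hyx, hy⟩ := exists_minimal_le_of_wellFoundedLT (· ∈ LE X J.1) _ hx
      obtain ⟨d, g, hgJ, hgd, hg0, hgy⟩ := hy.prop
      have hdw : Finsupp.weight X.deg ((mo X.N).degree g) = d :=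
        hgd (mem_support_iff.1 ((mo X.N).degree_mem_support hg0))
      have hdD : d ∈ D := by
        rw [hDdef]
        apply Finset.mem_insert_of_mem
        rw [Set.Finite.mem_toFinset]
        refine Set.mem_biUnion ⟨J, rfl⟩ ⟨y, hy, ?_⟩
        have : Finsupp.equivFunOnFinite.symm y = (mo X.N).degree g := by
          rw [← hgy]; simp
        simp only [this, hdw]
      have hle : (mo X.N).degree g ≤ (mo X.N).degree f := by
        intro i
        have := hyx i
        rw [← hgy] at this
        exact this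
      set m' : Fin X.N →₀ ℕ := (mo X.N).degree f - (mo X.N).degree g with hm'
      have hg' : g ∈ Ideal.span {f | f ∈ J.1 ∧ ∃ u ∈ D, f ∈ X.gr u} :=
        Ideal.subset_span ⟨hgJ, d, hdD, hgd⟩
      have hne : monomial m' (1 : ℂ) * g ≠ 0 := mul_ne_zero (by simp) hg0
      have hdeg : (mo X.N).degree (monomial m' (1 : ℂ) * g) = (mo X.N).degree f := by
        rw [(mo X.N).degree_mul (by simp) hg0, (mo X.N).degree_monomial]
        simp [hm', tsub_add_cancel_of_le hle]
      have hgu : monomial m' (1 : ℂ) * g ∈ X.gr u := by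
        have h1 : IsWeightedHomogeneous X.deg (monomial m' (1 : ℂ) * g)
            (Finsupp.weight X.deg m' + d) :=
          IsWeightedHomogeneous.mul (isWeightedHomogeneous_monomial X.deg m' 1 rfl) hgd
        have h2 : Finsupp.weight X.deg m' + d = u := by
          have h3 : Finsupp.weight X.deg ((mo X.N).degree f) = u :=
            hfu (mem_support_iff.1 ((mo X.N).degree_mem_support hf0))
          rw [← h3, ← hdw, ← map_add, hm', tsub_add_cancel_of_le hle]
        rw [h2] at h1
        exact h1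
      obtain ⟨c, hc⟩ := reduce_step (f := f) hne hdeg
      have hgm : c • (monomial m' (1 : ℂ) * g) ∈
          Ideal.span {f | f ∈ J.1 ∧ ∃ u ∈ D, f ∈ X.gr u} := by
        rw [smul_eq_C_mul]
        exact Ideal.mul_mem_left _ _ (Ideal.mul_mem_left _ _ hg')
      have hfe : f = (f - c • (monomial m' (1 : ℂ) * g)) + c • (monomial m' (1 : ℂ) * g) := by ring
      rw [hfe]
      refine Ideal.add_mem _ ?_ hgm
      rcases hc with hc | hc
      · rw [hc]; exact Ideal.zero_mem _
      · by_cases h0 : f - c • (monomial m' (1 : ℂ) * g) = 0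
        · rw [h0]; exact Ideal.zero_mem _
        · refine ih _ (ht ▸ hc) u _ ?_ ?_ h0 rfl
          · refine Ideal.sub_mem _ hfJ ?_
            rw [smul_eq_C_mul]
            exact Ideal.mul_mem_left _ _ (Ideal.mul_mem_left _ _ hgJ)
          · exact Submodule.sub_mem _ hfu (Submodule.smul_mem _ _ hgu)
    intro f hf
    have hcomp : ∀ u, weightedHomogeneousComponent X.deg u f ∈
        Ideal.span {f | f ∈ J.1 ∧ ∃ u ∈ D, f ∈ X.gr u} := by
      intro u
      by_cases h0 : weightedHomogeneousComponent X.deg u f = 0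
      · rw [h0]; exact Ideal.zero_mem _
      · exact key _ u _ (J.2.1 f hf u) (weightedHomogeneousComponent_mem _ _ _) h0 rfl
    rw [← sum_weightedHomogeneousComponent X.deg f]
    exact finsum_induction (· ∈ Ideal.span {f | f ∈ J.1 ∧ ∃ u ∈ D, f ∈ X.gr u})
      (Ideal.zero_mem _) (fun _ _ ha hb => Ideal.add_mem _ ha hb) hcomp
  · rw [Ideal.span_le]
    intro f hf
    exact hf.1

end Pool.Agent.H24.VSP
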